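import Pool.Agent.H.MP_ddb4d7_al.A

namespace Pool.Agent.Results.MP_ddb4d7_al.Counter

open Pool.Agent.H.MP_fedac3_al Pool.Agent.H.MP_ddb4d7_al Subgroup

theorem result :
    ∃ (G : Type) (_ : Group G) (_ : Finite G) (Z : Subgroup G) (_ : Z.Normal)
      (𝔛 : (H : Type) → [Group H] → Prop),
      Group.IsSolvable G ∧
      (∃ (N : Subgroup G) (_ : N.Normal), Group.IsNilpotent N ∧ Group.IsNilpotent (G ⧸ N)) ∧
      Z ≤ Subgroup.center G ⊓ frattini G ∧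
      (∀ (H : Type) [Group H], 𝔛 H → Finite H ∧ Group.IsSolvable H) ∧
      (∀ (H K : Type) [Group H] [Group K], Nonempty (H ≃* K) → 𝔛 H → 𝔛 K) ∧
      (∀ (H : Type) [Group H] (N : Subgroup H), N.Normal → 𝔛 H → 𝔛 N) ∧
      (∀ (H : Type) [Group H] (N M : Subgroup H), N.Normal → M.Normal →
        𝔛 N → 𝔛 M → 𝔛 ↥(N ⊔ M)) ∧
      𝔛 (G ⧸ Z) ∧ ¬ 𝔛 G := by
  obtain ⟨G, _, _, Z, _, k, hk, h1, h2, h3, h4⟩ := H.MP_ddb4d7_al.main
  have f := fit_X hk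
  refine ⟨G, _, ‹_›, Z, ‹_›, fun H _ => Finite H ∧ X k H, solv h1, mnil h1, h2,
    fun H _ h => ⟨h.1, have := h.1; solv h.2⟩, fun H K _ _ ⟨e⟩ h =>
    ⟨have := h.1; .of_equiv _ e.toEquiv, f.1 _ _ ⟨e⟩ h.2⟩, fun H _ N hN h =>
    have := h.1; ⟨inferInstance, f.2.1 _ _ hN h.2⟩, fun H _ N M _ _ h h' => ?_,
    ⟨inferInstance, h3⟩, fun h => h4 h.2⟩
  have := h.1
  have := h'.1
  have := fin_sup N M
  exact ⟨this, X.sup hk (by rw [← subgroupOf_sup le_sup_left le_sup_right, subgroupOf_self])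
    (f.1 _ _ ⟨(subgroupOfEquivOfLe le_sup_left).symm⟩ h.2)
    (f.1 _ _ ⟨(subgroupOfEquivOfLe le_sup_right).symm⟩ h'.2)⟩

end Pool.Agent.Results.MP_ddb4d7_al.Counter
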